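import Pool.Agent.helper74.FD.SpecG

/-!
# Row `fd:MNF`: the main estimate of project FD
-/

set_option autoImplicit false

open scoped MatrixGroups ContDiff Topology UpperHalfPlane ComplexConjugate
open UpperHalfPlane MeasureTheory Filter Set

namespace Pool.Agent.FD

open Pool.Agent.RS Pool.Agent.MS
open Pool.Agent.EN (XG MG mkX mkM fl pr)

/-- the choice of the two times -/
theorem MNF_time (A B η : ℝ) (hη : 0 < η) (hB : 0 ≤ B) : ∃ n' : ℝ, A ≤ n' ∧ 0 ≤ n' ∧ B + Real.pi ≤ Real.pi / (2 * η) * Real.exp n' := by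
  have hπ := Real.pi_pos
  refine ⟨max A 0 + 2 * η / Real.pi * (B + Real.pi), ?_, ?_, ?_⟩
  · have h1 := le_max_left A 0
    have : 0 ≤ 2 * η / Real.pi * (B + Real.pi) := by positivity
    linarith
  · have h1 := le_max_right A 0
    have : 0 ≤ 2 * η / Real.pi * (B + Real.pi) := by positivity
    linarith
  · have h1 := le_max_right A 0
    have h2 := Real.add_one_le_exp (max A 0 + 2 * η / Real.pi * (B + Real.pi))
    have h3 : 2 * η / Real.pi * (B + Real.pi) ≤ Real.exp (max A 0 + 2 * η / Real.pi * (B + Real.pi)) := by linarith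
    calc B + Real.pi = Real.pi / (2 * η) * (2 * η / Real.pi * (B + Real.pi)) := by field_simp
      _ ≤ _ := mul_le_mul_of_nonneg_left h3 (by positivity)

theorem MNF_time2 (A η δ : ℝ) (hA : 0 ≤ A) (hη : 0 < η) (hδ : 0 < δ) : ∃ s : ℝ, 0 ≤ s ∧ A * Real.exp (-s) ≤ δ / 2 ∧ Real.exp (-s) ≤ η / 20 := by
  refine ⟨2 * A / δ + 20 / η, by positivity, ?_, ?_⟩
  · have h2 := Real.add_one_le_exp (2 * A / δ + 20 / η)
    have h20 : 0 < 20 / η := by positivity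
    have h3 : 2 * A / δ ≤ Real.exp (2 * A / δ + 20 / η) := by linarith
    rw [Real.exp_neg, mul_inv_le_iff₀ (Real.exp_pos _)]
    calc A = δ / 2 * (2 * A / δ) := by field_simp
      _ ≤ δ / 2 * Real.exp (2 * A / δ + 20 / η) := mul_le_mul_of_nonneg_left h3 (by positivity)
  · have h2 := Real.add_one_le_exp (2 * A / δ + 20 / η)
    have h20 : 0 ≤ 2 * A / δ := by positivity
    have h3 : 20 / η ≤ Real.exp (2 * A / δ + 20 / η) := by linarith
    have h4 : (η / 20)⁻¹ = 20 / η := by rw [inv_div]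
    rw [Real.exp_neg]
    rw [inv_le_comm₀ (Real.exp_pos _) (by positivity), h4]
    exact h3

theorem MNF_proof (hFPD : FPD_stmt) (hDEN : DEN_stmt) (hDES : DES_stmt) (hUCN : UCN_stmt) (hCTF : CTF_stmt) (hDPM : DPM_stmt)
    (hLOC : LOC_stmt) (hJPO : JPO_stmt) (hYPO : YPO_stmt) (hPVG : HV.PVG_stmt) (hGLC : RS.GLC_stmt) : MNF_stmt := by
  intro Γ F β α θ hΓ hF hβ hα hθ hg1 δ hδ hδ1
  obtain ⟨g1, hg1⟩ := hg1
  have hπ := Real.pi_pos
  have hπ4 := Real.pi_le_four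
  -- the open set `W`
  have hWo : IsOpen {g | 3 / 4 < θ g} := isOpen_lt continuous_const hθ.inv.1
  have hWn : {g | 3 / 4 < θ g}.Nonempty := ⟨g1, by show 3 / 4 < θ g1; rw [hg1]; norm_num⟩
  have hWi : Iv Γ {g | 3 / 4 < θ g} := by
    refine ⟨fun γ g => ?_, fun g => ?_⟩
    · show 3 / 4 < θ _ ↔ 3 / 4 < θ _
      rw [hθ.inv.2]
    · show 3 / 4 < θ _ ↔ 3 / 4 < θ _
      rw [hθ.even]
  obtain ⟨Ta, ca, hTa, hca, hca4, hWa⟩ := hDEN Γ _ hΓ hWo hWn hWi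
  obtain ⟨Tb, cb, hTb, hcb, hcb4, hWb⟩ := hDES Γ _ hΓ hWo hWn hWi
  obtain ⟨T0, hT0a, hT0b⟩ : ∃ T0 : ℝ, Ta ≤ T0 ∧ Tb ≤ T0 := ⟨max Ta Tb, le_max_left _ _, le_max_right _ _⟩
  obtain ⟨c, hc0, hcca, hccb⟩ : ∃ c : ℝ, 0 < c ∧ c ≤ ca ∧ c ≤ cb := ⟨min ca cb, lt_min hca hcb, min_le_left _ _, min_le_right _ _⟩
  have hT0 : 0 ≤ T0 := hTa.trans hT0a
  have hc4 : c ≤ 1 / 4 := hcca.trans hca4
  have hDa : ∀ g : SL(2, ℝ), ∃ t v0 : ℝ, 0 ≤ t ∧ t ≤ T0 ∧ c ≤ v0 ∧ v0 ≤ 1 - c ∧ ∀ v, |v - v0| ≤ c → 3 / 4 < θ (g * lM v * aM t) := by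
    intro g
    obtain ⟨t, v0, h1, h2, h3, h4, h5⟩ := hWa g
    exact ⟨t, v0, h1, h2.trans hT0a, hcca.trans h3, by linarith, fun v hv => h5 v (hv.trans hcca)⟩
  have hDb : ∀ g : SL(2, ℝ), ∃ t v0 : ℝ, 0 ≤ t ∧ t ≤ T0 ∧ c ≤ v0 ∧ v0 ≤ 1 - c ∧ ∀ v, |v - v0| ≤ c → 3 / 4 < θ (g * nM v * aM (-t)) := by
    intro g
    obtain ⟨t, v0, h1, h2, h3, h4, h5⟩ := hWb g
    exact ⟨t, v0, h1, h2.trans hT0b, hccb.trans h3, by linarith, fun v hv => h5 v (hv.trans hccb)⟩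
  obtain ⟨η, hη, hη1, hunif⟩ := hUCN Γ θ hΓ hθ.inv (1 / 16) (by norm_num)
  obtain ⟨K, hK1, hK⟩ := hPVG Γ F β α hΓ hF hβ hα
  have hK0 : 0 < K := by linarith
  set L := 2 * Real.exp (1 + T0) / η with hL
  have hL0 : 0 < L := by positivity
  have hQ0 : 0 < δ ^ 2 / 128 := by positivity
  obtain ⟨h, hh0, hh1, hFP⟩ := hFPD (c / 6) L (δ ^ 2 / 128) (by positivity) (by linarith) hL0 hQ0
  -- the forward time
  set n := T0 - Real.log h with hn
  have hlog : Real.log h ≤ 0 := Real.log_nonpos hh0.le hh1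
  have hnT : T0 ≤ n := by linarith
  have hn0 : 0 ≤ n := by linarith
  have hnh : Real.exp (T0 - n) = h := by
    have : T0 - n = Real.log h := by rw [hn]; ring
    rw [this, Real.exp_log hh0]
  obtain ⟨Ψ, Ψa, Ψn, Ψl, C1, hSF, hΨ01, hC1, hΨn, hΨl, hΨ1, hΨ2⟩ := hCTF Γ θ n hΓ hθ hn0
  -- the backward time
  obtain ⟨n', hn'T, hn'0, hn'l⟩ := MNF_time (T0 + 2) (2 * K * C1 / δ) η hη (by positivity)
  set lam := Real.pi / (2 * η) * Real.exp n' with hlam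
  have hlam1 : 2 * K * C1 / δ ≤ lam := by linarith
  have hlamπ : Real.pi ≤ lam := by
    have : 0 ≤ 2 * K * C1 / δ := by positivity
    linarith
  have hlam0 : 0 < lam := by linarith
  obtain ⟨Ψ', Ψa', Ψn', Ψl', C2, hSF', hΨ01', hC2, hΨn', hΨl', hΨ1', hΨ2'⟩ := hCTF Γ θ n' hΓ hθ hn'0
  obtain ⟨s, hs0, hs1, hs2⟩ := MNF_time2 (K * C2) η δ (by positivity) hη hδ
  set ε := Real.pi / (4 * lam) with hε
  have hE' : 0 < Real.exp n' := Real.exp_pos _
  have hEm : Real.exp (-n') = (Real.exp n')⁻¹ := Real.exp_neg n'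
  have hε0 : 0 < ε := by positivity
  have hεv : ε = η * Real.exp (-n') / 2 := by
    rw [hε, hlam, hEm]
    field_simp
    ring
  have hε4 : ε ≤ 1 / 4 := by
    rw [hε, div_le_iff₀ (by positivity)]
    linarith
  set J0 := ⌈1 / (4 * ε)⌉₊ with hJ0
  have hJ0a : 1 / 4 ≤ (J0 : ℝ) * ε := by
    have h1 : 1 / (4 * ε) ≤ (J0 : ℝ) := Nat.le_ceil _
    rw [div_le_iff₀ (by positivity)] at h1
    linarith
  have hJ0b : (J0 : ℝ) * ε ≤ 1 / 2 := by
    have h1 : (J0 : ℝ) < 1 / (4 * ε) + 1 := Nat.ceil_lt_add_one (by positivity)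
    have h2 : (J0 : ℝ) * ε ≤ (1 / (4 * ε) + 1) * ε := mul_le_mul_of_nonneg_right h1.le hε0.le
    have h3 : (1 / (4 * ε) + 1) * ε = 1 / 4 + ε := by field_simp
    linarith
  set δ1 := min (1 / 100) (η * Real.exp (-n') / 100) with hδ1d
  have hEn0 : 0 < Real.exp (-n') := Real.exp_pos _
  have hEn1 : Real.exp (-n') ≤ 1 := Real.exp_le_one_iff.mpr (by linarith)
  have hδ10 : 0 < δ1 := lt_min (by norm_num) (by positivity)
  have hδ1a : δ1 ≤ 1 / 100 := min_le_left _ _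
  have hδ1b : δ1 ≤ η * Real.exp (-n') / 100 := min_le_right _ _
  have hδ1η : 2 * δ1 ≤ η := by nlinarith
  obtain ⟨hDm, hDi⟩ := hDPM Γ θ n' hθ
  obtain ⟨r2, hr2, hmain⟩ := hK δ C1 C2 n' s lam (δ ^ 2 / 128) δ1 (η * Real.exp (-n')) J0 Ψ Ψa Ψn Ψl Ψ' Ψa' Ψn' Ψl' (Dpp θ n') hδ hδ1 hC1 hC2 hn'0 hs0
    hs1 hlam1 hQ0.le (by linarith) hδ10 (by positivity) hJ0a hSF hΨ01 hΨn hΨl hSF' hΨ01' hΨn' hΨl' hDm hDi
    (by
      intro j g k w hj hk hw1 hw2 hw3 hw4 hne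
      have hEs0 : 0 < Real.exp (-s) := Real.exp_pos _
      have hEs : Real.exp (-(n' + s)) = Real.exp (-n') * Real.exp (-s) := by rw [← Real.exp_add]; congr 1; ring
      have hEs1 : Real.exp (-(n' + s)) ≤ 1 := Real.exp_le_one_iff.mpr (by linarith)
      have hE1 : Real.exp n' * Real.exp (-n') = 1 := by rw [← Real.exp_add]; simp
      refine hLOC Γ θ η n' ε δ1 (j * (Real.pi / (4 * lam))) g k w hθ hη hη1 hunif hn'0 hδ10 hδ1a hδ1η hk (by linarith) hw2 hw3 hw4 ?_ (hΨ2' _ hne)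
      have h1 : |w.re| ≤ Real.exp (-n') * Real.exp (-s) / 4 := by rw [← hEs]; exact hw1
      have h2 : ε + 10 * (|w.re| + δ1) ≤ Real.exp (-n') * (η / 2 + 10 / 4 * Real.exp (-s) + η / 10) := by
        rw [hεv]
        nlinarith
      calc Real.exp n' * (ε + 10 * (|w.re| + δ1)) ≤ Real.exp n' * (Real.exp (-n') * (η / 2 + 10 / 4 * Real.exp (-s) + η / 10)) :=
            mul_le_mul_of_nonneg_left h2 hE'.le
        _ = (Real.exp n' * Real.exp (-n')) * (η / 2 + 10 / 4 * Real.exp (-s) + η / 10) := by ring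
        _ = η / 2 + 10 / 4 * Real.exp (-s) + η / 10 := by rw [hE1, one_mul]
        _ ≤ η := by linarith)
    (by
      intro l g g' J a hl0 hl1 hJ
      have hE1 : Real.exp n' * Real.exp (-n') = 1 := by rw [← Real.exp_add]; simp
      have hpor : Por (c / 6) L {x : ℝ | ∃ j ∈ J, x = (j : ℝ)} := by
        refine hJPO Γ θ η T0 c n' ε l L g J hθ hη hη1 hunif hT0 hc0 hc4 hDb hn'T hε0 hl0 ?_ hL0 ?_ ?_
        · calc Real.exp n' * l ≤ Real.exp n' * (η * Real.exp (-n')) := mul_le_mul_of_nonneg_left hl1 hE'.le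
            _ = η * (Real.exp n' * Real.exp (-n')) := by ring
            _ = η := by rw [hE1, mul_one]
        · rw [hL, hεv]
          have e : 2 * Real.exp (1 + T0) / η * (η * Real.exp (-n') / 2) = Real.exp (1 + T0) * Real.exp (-n') := by field_simp
          rw [e, ← Real.exp_add]
          apply le_of_eq
          congr 1
        · intro j hj
          obtain ⟨h1, h2⟩ := hJ j hj
          refine ⟨?_, h2⟩
          have h3 : |(j : ℝ)| ≤ (J0 : ℝ) := by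
            have : ((|j| : ℤ) : ℝ) ≤ ((J0 : ℤ) : ℝ) := by exact_mod_cast h1
            rw [Int.cast_abs] at this
            exact_mod_cast this
          exact (mul_le_mul_of_nonneg_right h3 hε0.le).trans hJ0b
      have hmeas : MeasurableSet (Icc (0 : ℝ) 1 ∩ {v | g' * lM v ∈ {g | Ψ g ≠ 0}}) := by
        refine measurableSet_Icc.inter ?_
        have hc : Continuous (fun v : ℝ => Ψ (g' * lM v)) := hSF.i0.1.comp (continuous_const.mul hGLC.2.2.2.2.2.1)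
        exact (isOpen_ne.preimage hc).measurableSet
      have hporS : PorS (c / 6) h (Icc (0 : ℝ) 1 ∩ {v | g' * lM v ∈ {g | Ψ g ≠ 0}}) := by
        have h1 := hYPO Γ θ Ψ T0 c n g' hθ hT0 hc0 hc4 hDa hnT hΨ2
        rw [hnh] at h1
        intro x y hxy hxy1
        obtain ⟨z, hz1, hz2, hz3⟩ := h1 x y hxy hxy1
        have hxy0 : 0 ≤ y - x := by linarith
        have hcc : c / 6 * (y - x) ≤ c * (y - x) := mul_le_mul_of_nonneg_right (by linarith) hxy0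
        refine ⟨z, hz1, by linarith, fun v hv hv2 => hz3 v hv ⟨hv2.1, by linarith [hv2.2]⟩⟩
      exact hFP J _ a hpor hmeas inter_subset_left hporS)
  refine ⟨Ψ, Ψ', r2, hSF.i0, hSF'.i0, hΨ01, hΨ01', ?_, hr2, ?_⟩
  · intro g hg
    refine ⟨hΨ1 g fun t _ => ?_, hΨ1' g fun t _ => ?_⟩
    · rw [hg t]; norm_num
    · rw [hg t]; norm_num
  · exact hmain

end Pool.Agent.FD
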